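import Pool.Agent.H28.FrC

set_option autoImplicit false

/-!
# The frustration index of signed subcubic graphs of girth at least five

Every signed simple subcubic graph `(G, σ)` of girth at least `5` (connected or not) satisfies
`F(G, σ) ≤ 3 v(G) / 10`.

Proof. Take a switching with the least number of negative edges. The negative edges are a matching
`M`, and every vertex set has at least as many positive as negative edges on its boundary. So an
end of a negative edge has at most one positive neighbour which is also an end of a negative edge.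
Every end of a negative edge gives the total weight `2` to its neighbours which are not ends of
negative edges (weight `2` if there is only one, which we call a special vertex, and weight `1` if
there are two). A vertex `a` outside `V(M)` gets at most `3`, except that it may get `4` if it is a
vertex of a pentagon `a v u z x` with `u z`, `v v'`, `x x'` in `M`. Then `a` has a third neighbour
`a'`. After switching `{v, u}`, which does not change the number of negative edges, `a` is an end
of a negative edge; this shows that `a'` gets so little that it can pay for all its bad neighbours.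
So `2 |V(M)| ≤ 3 (v(G) - |V(M)|)`.
-/

namespace Pool.Agent.Results.MP_c06078_co.GirthFive

open Finset

variable {V : Type*}

/-- The edge `e` lies in the edge cut `[X, Xᶜ]`: it has exactly one end in `X`. -/
def InCut (X : Set V) (e : Sym2 V) : Prop := ∃ u v, u ∈ X ∧ v ∉ X ∧ e = s(u, v)

open Classical in
/-- Switching the signature `σ` at the edge cut `[X, Xᶜ]` reverses the signs of its edges. -/
noncomputable def switch {G : SimpleGraph V} (σ : G.edgeSet → ℤˣ) (X : Set V) :
    G.edgeSet → ℤˣ :=
  fun e => if InCut X (e : Sym2 V) then -σ e else σ e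

/-- Two signatures are switching equivalent if one arises from the other by switching. -/
def SwitchingEquivalent {G : SimpleGraph V} (σ σ' : G.edgeSet → ℤˣ) : Prop :=
  ∃ X : Set V, σ' = switch σ X

/-- The number of negative edges of a signature. -/
noncomputable def negCount {G : SimpleGraph V} (σ : G.edgeSet → ℤˣ) : ℕ :=
  Nat.card {e : G.edgeSet // σ e = -1}

/-- The frustration index: the least number of negative edges over all signatures which are
switching equivalent to `σ`. -/
noncomputable def frustrationIndex {G : SimpleGraph V} (σ : G.edgeSet → ℤˣ) : ℕ :=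
  sInf {k | ∃ σ' : G.edgeSet → ℤˣ, SwitchingEquivalent σ σ' ∧ k = negCount σ'}

section Proof

open Classical

set_option linter.unusedSectionVars false
set_option linter.unusedSimpArgs false

lemma inCut_mk (X : Set V) (u v : V) :
    InCut X s(u, v) ↔ ((u ∈ X ∧ v ∉ X) ∨ (v ∈ X ∧ u ∉ X)) := by
  constructor
  · rintro ⟨a, b, ha, hb, h⟩
    rw [Sym2.eq_iff] at h
    rcases h with ⟨rfl, rfl⟩ | ⟨rfl, rfl⟩
    · exact Or.inl ⟨ha, hb⟩
    · exact Or.inr ⟨ha, hb⟩
  · rintro (⟨h1, h2⟩ | ⟨h1, h2⟩)
    · exact ⟨u, v, h1, h2, rfl⟩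
    · exact ⟨v, u, h1, h2, Sym2.eq_swap⟩

variable {G : SimpleGraph V}

lemma switch_switch (σ : G.edgeSet → ℤˣ) (X Y : Set V) :
    switch (switch σ X) Y = switch σ (symmDiff X Y) := by
  funext ⟨e, he⟩
  induction e using Sym2.ind with
  | _ u v =>
    have h1 := inCut_mk X u v
    have h2 := inCut_mk Y u v
    have h3 := inCut_mk (symmDiff X Y) u v
    simp only [switch]
    rw [Set.mem_symmDiff, Set.mem_symmDiff] at h3
    by_cases a1 : u ∈ X <;> by_cases a2 : v ∈ X <;> by_cases a3 : u ∈ Y <;>
      by_cases a4 : v ∈ Y <;> simp_all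

lemma switch_empty (σ : G.edgeSet → ℤˣ) : switch σ ∅ = σ := by
  funext ⟨e, he⟩
  induction e using Sym2.ind with
  | _ u v =>
    have h1 := inCut_mk ∅ u v
    simp only [switch]
    simp_all

/-- weights of a signature -/
noncomputable def wt (σ : G.edgeSet → ℤˣ) (u v : V) : ℤ :=
  if h : G.Adj u v then ((σ ⟨s(u, v), h⟩ : ℤˣ) : ℤ) else 0

lemma wt_ne (σ : G.edgeSet → ℤˣ) (u v : V) : wt σ u v ≠ 0 ↔ G.Adj u v := by
  unfold wt
  split_ifs with h
  · simp [h]
  · simp [h]

lemma wt_symm (σ : G.edgeSet → ℤˣ) (u v : V) : wt σ u v = wt σ v u := by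
  unfold wt
  by_cases h : G.Adj u v
  · have h' : G.Adj v u := h.symm
    rw [dif_pos h, dif_pos h']
    congr 3
    exact Sym2.eq_swap
  · have h' : ¬ G.Adj v u := fun h0 => h h0.symm
    rw [dif_neg h, dif_neg h']

lemma wt_val (σ : G.edgeSet → ℤˣ) (u v : V) : wt σ u v = 0 ∨ wt σ u v = 1 ∨ wt σ u v = -1 := by
  unfold wt
  split_ifs with h
  · rcases Int.units_eq_one_or (σ ⟨s(u, v), h⟩) with h0 | h0 <;> rw [h0] <;> simp
  · simp

lemma wt_switch (σ : G.edgeSet → ℤˣ) (s : V → ℤ) (hs : ∀ v, s v = 1 ∨ s v = -1) (u v : V) :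
    wt (switch σ {v | s v = -1}) u v = s u * s v * wt σ u v := by
  unfold wt
  by_cases h : G.Adj u v
  · rw [dif_pos h, dif_pos h]
    have h1 := inCut_mk {v | s v = -1} u v
    simp only [switch]
    rcases hs u with a | a <;> rcases hs v with b | b <;> simp_all
  · rw [dif_neg h, dif_neg h]
    simp

/-- the graph of the negative edges -/
def negGraph (σ : G.edgeSet → ℤˣ) : SimpleGraph V where
  Adj u v := wt σ u v = -1
  symm := ⟨fun u v h => by rw [wt_symm]; exact h⟩
  loopless := ⟨fun u h => by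
    have : wt σ u u ≠ 0 := by rw [h]; norm_num
    exact G.loopless.irrefl u ((wt_ne σ u u).1 this)⟩

lemma negGraph_edge (σ : G.edgeSet → ℤˣ) (e : Sym2 V) :
    e ∈ (negGraph σ).edgeSet ↔ ∃ h : e ∈ G.edgeSet, σ ⟨e, h⟩ = -1 := by
  induction e using Sym2.ind with
  | _ u v =>
    rw [SimpleGraph.mem_edgeSet]
    change wt σ u v = -1 ↔ _
    unfold wt
    constructor
    · intro h
      split_ifs at h with h1
      refine ⟨h1, ?_⟩
      rcases Int.units_eq_one_or (σ ⟨s(u, v), h1⟩) with h0 | h0
      · rw [h0] at h; norm_num at h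
      · exact h0
    · rintro ⟨h1, h2⟩
      have h1' : G.Adj u v := h1
      rw [dif_pos h1', h2]
      norm_num

variable [Fintype V]

lemma negCount_eq (σ : G.edgeSet → ℤˣ) : negCount σ = (negGraph σ).edgeFinset.card := by
  unfold negCount
  rw [SimpleGraph.edgeFinset, Set.toFinset_card, ← Nat.card_eq_fintype_card]
  refine Nat.card_congr
    { toFun := fun e => ⟨e.1.1, (negGraph_edge σ e.1.1).2 ⟨e.1.2, e.2⟩⟩
      invFun := fun e => ⟨⟨e.1, ((negGraph_edge σ e.1).1 e.2).1⟩,
        ((negGraph_edge σ e.1).1 e.2).2⟩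
      left_inv := fun _ => rfl
      right_inv := fun _ => rfl }

lemma sum_wt (σ : G.edgeSet → ℤˣ) : ∑ u, ∑ v, wt σ u v =
    ∑ u, ∑ v, (if G.Adj u v then (1 : ℤ) else 0) - 4 * negCount σ := by
  have h1 : ∀ u v, wt σ u v =
      (if G.Adj u v then (1 : ℤ) else 0) - 2 * (if (negGraph σ).Adj u v then (1 : ℤ) else 0) := by
    intro u v
    have h2 : (negGraph σ).Adj u v ↔ wt σ u v = -1 := Iff.rfl
    have h3 := wt_ne σ u v
    rcases wt_val σ u v with h | h | h <;> simp_all
  simp_rw [h1, Finset.sum_sub_distrib, ← Finset.mul_sum]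
  have h4 : ∑ u, ∑ v, (if (negGraph σ).Adj u v then (1 : ℤ) else 0) = 2 * negCount σ := by
    have h5 := (negGraph σ).sum_degrees_eq_twice_card_edges
    have h6 : ∀ u, ∑ v, (if (negGraph σ).Adj u v then (1 : ℤ) else 0) =
        ((negGraph σ).degree u : ℤ) := by
      intro u
      rw [← SimpleGraph.card_neighborFinset_eq_degree, SimpleGraph.neighborFinset_eq_filter,
        Finset.card_filter]
      push_cast
      rfl
    simp_rw [h6]
    rw [negCount_eq, ← Nat.cast_sum, h5]
    push_cast
    ring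
  rw [h4]
  ring

lemma no_triangle (hg : 5 ≤ G.egirth) {a b c : V} (h1 : G.Adj a b) (h2 : G.Adj b c)
    (h3 : G.Adj c a) : False := by
  have hw : (SimpleGraph.Walk.cons h1 (SimpleGraph.Walk.cons h2
      (SimpleGraph.Walk.cons h3 SimpleGraph.Walk.nil))).IsCycle := by
    rw [SimpleGraph.Walk.cons_isCycle_iff]
    refine ⟨?_, ?_⟩
    · simp [SimpleGraph.Walk.cons_isPath_iff, h3.ne, h2.ne, h1.ne.symm]
    · simp [h1.ne, h1.ne.symm, h2.ne, h3.ne, h3.ne.symm, h2.ne.symm]
  have := (SimpleGraph.le_egirth.1 hg) a _ hw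
  simp only [SimpleGraph.Walk.length_cons, SimpleGraph.Walk.length_nil] at this
  norm_num at this

lemma no_quad (hg : 5 ≤ G.egirth) {a b c d : V} (hac : a ≠ c) (hbd : b ≠ d) (h1 : G.Adj a b)
    (h2 : G.Adj b c) (h3 : G.Adj c d) (h4 : G.Adj d a) : False := by
  have hw : (SimpleGraph.Walk.cons h1 (SimpleGraph.Walk.cons h2
      (SimpleGraph.Walk.cons h3 (SimpleGraph.Walk.cons h4 SimpleGraph.Walk.nil)))).IsCycle := by
    rw [SimpleGraph.Walk.cons_isCycle_iff]
    refine ⟨?_, ?_⟩
    · simp [SimpleGraph.Walk.cons_isPath_iff, h4.ne, h3.ne, h2.ne, h1.ne.symm, hbd, hac.symm]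
    · simp [h1.ne, h1.ne.symm, h2.ne, h3.ne, h3.ne.symm, h2.ne.symm, hac, hbd, hac.symm,
        hbd.symm, h4.ne, h4.ne.symm]
  have := (SimpleGraph.le_egirth.1 hg) a _ hw
  simp only [SimpleGraph.Walk.length_cons, SimpleGraph.Walk.length_nil] at this
  norm_num at this

lemma cfg_of_min (hg : 5 ≤ G.egirth) (hd : ∀ v, (G.neighborSet v).ncard ≤ 3)
    (σ : G.edgeSet → ℤˣ) (hmin : ∀ X, negCount σ ≤ negCount (switch σ X)) :
    H28.Fr.Cfg (wt σ) := by
  refine ⟨wt_symm σ, ?_, wt_val σ, ?_, ?_, ?_, ?_⟩
  · intro u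
    by_contra h
    exact G.loopless.irrefl u ((wt_ne σ u u).1 h)
  · intro u
    have : (univ.filter (fun v => wt σ u v ≠ 0)).card = (G.neighborSet u).ncard := by
      rw [Set.ncard_eq_toFinset_card']
      congr 1
      ext v
      simp [wt_ne]
    rw [this]
    exact hd u
  · intro a b c hab hbc
    by_contra h
    exact no_triangle hg ((wt_ne σ _ _).1 hab) ((wt_ne σ _ _).1 hbc) ((wt_ne σ _ _).1 h)
  · intro a b c d hac hbd hab hbc hcd
    by_contra h
    exact no_quad hg hac hbd ((wt_ne σ _ _).1 hab) ((wt_ne σ _ _).1 hbc) ((wt_ne σ _ _).1 hcd)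
      ((wt_ne σ _ _).1 h)
  · intro s hs
    have h1 := hmin {v | s v = -1}
    have h2 := sum_wt (switch σ {v | s v = -1})
    simp_rw [wt_switch σ s hs] at h2
    rw [h2, sum_wt σ]
    have : (negCount σ : ℤ) ≤ negCount (switch σ {v | s v = -1}) := by exact_mod_cast h1
    linarith

lemma two_negCount_le (σ : G.edgeSet → ℤˣ) (h : H28.Fr.Cfg (wt σ)) :
    2 * negCount σ ≤ (H28.Fr.MVs (wt σ)).card := by
  rw [negCount_eq, ← (negGraph σ).sum_degrees_eq_twice_card_edges]
  unfold H28.Fr.MVs
  rw [Finset.card_filter]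
  apply Finset.sum_le_sum
  intro u _
  by_cases hu : H28.Fr.Mv (wt σ) u
  · rw [if_pos hu, ← SimpleGraph.card_neighborFinset_eq_degree, Finset.card_le_one]
    intro a ha b hb
    rw [SimpleGraph.mem_neighborFinset] at ha hb
    exact h.partner_unique ha hb
  · rw [if_neg hu, Nat.le_zero, ← SimpleGraph.card_neighborFinset_eq_degree,
      Finset.card_eq_zero, Finset.eq_empty_iff_forall_notMem]
    intro a ha
    rw [SimpleGraph.mem_neighborFinset] at ha
    exact hu ⟨a, ha⟩

end Proof

/-- Every signed simple subcubic graph of girth at least five (connected or not) has frustration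
index at most `3 / 10` of the number of its vertices. -/
theorem result (V : Type*) [Finite V] (G : SimpleGraph V)
    (hdeg : ∀ v : V, (G.neighborSet v).ncard ≤ 3) (hgirth : 5 ≤ G.egirth)
    (σ : G.edgeSet → ℤˣ) :
    (frustrationIndex σ : ℝ) ≤ 3 / 10 * (Nat.card V : ℝ) := by
  classical
  have := Fintype.ofFinite V
  obtain ⟨σ', ⟨X, hX⟩, hσ'⟩ := Nat.sInf_mem
    (s := {k | ∃ σ' : G.edgeSet → ℤˣ, SwitchingEquivalent σ σ' ∧ k = negCount σ'})
    ⟨negCount σ, σ, ⟨∅, (switch_empty σ).symm⟩, rfl⟩
  have hmin : ∀ Y, negCount σ' ≤ negCount (switch σ' Y) := by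
    intro Y
    rw [← hσ']
    apply Nat.sInf_le
    refine ⟨switch σ' Y, ⟨symmDiff X Y, ?_⟩, rfl⟩
    rw [hX, switch_switch]
  have h := cfg_of_min hgirth hdeg σ' hmin
  have h1 := h.main
  have h2 := two_negCount_le σ' h
  have h3 : frustrationIndex σ = negCount σ' := hσ'
  rw [h3, Nat.card_eq_fintype_card]
  have h4 : 10 * negCount σ' ≤ 3 * Fintype.card V := by omega
  have h5 : (10 : ℝ) * negCount σ' ≤ 3 * Fintype.card V := by exact_mod_cast h4
  linarith

end Pool.Agent.Results.MP_c06078_co.GirthFive
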